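import Pool.Agent.H.MP_a83c81_co.Main

set_option autoImplicit false

namespace Pool.Agent.Results.MP_a83c81_co.Infinite

/-- The degree sequence, as the multiset of vertex degrees. -/
noncomputable def degSeq {n : ℕ} (H : SimpleGraph (Fin n)) : Multiset ℕ :=
  Multiset.map (fun v => (H.neighborSet v).ncard) Finset.univ.val

/-- `H` lies in `P(G)`: some graph with the degree sequence of `H` induces `G`. -/
def InP {k n : ℕ} (G : SimpleGraph (Fin k)) (H : SimpleGraph (Fin n)) : Prop :=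
  ∃ H' : SimpleGraph (Fin n), degSeq H' = degSeq H ∧ Nonempty (G ↪g H')

/-- `H` lies in `D(G)`: it is in `P(G)` and no proper induced subgraph is. -/
def InD {k n : ℕ} (G : SimpleGraph (Fin k)) (H : SimpleGraph (Fin n)) : Prop :=
  InP G H ∧ ∀ (m : ℕ) (K : SimpleGraph (Fin m)), m < n → Nonempty (K ↪g H) → ¬ InP G K

theorem result : ∃ (k : ℕ) (G : SimpleGraph (Fin k)), ∀ L : ℕ, ∃ n, L ≤ n ∧
    ∃ H : SimpleGraph (Fin n), InD G H :=
  ⟨16, Pool.Agent.H.MP_a83c81_co.G0, Pool.Agent.H.MP_a83c81_co.big⟩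

end Pool.Agent.Results.MP_a83c81_co.Infinite
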